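import Pool.Agent.W2helper15.HC.Shift

/-!
# The lattice of Halmos' bilateral weighted shift

Let `e n` (`n : ℤ`) be an orthonormal basis of a complex Hilbert space `H` and let `W` be the
bilateral weighted shift `W (e n) = 2 ^ (-|n|) e (n + 1)`. Then the closed invariant subspaces of
`W` are exactly `0`, `H` and the subspaces `M k` spanned by the `e n` with `n ≥ k`. In particular the
chain `1 + ω* + ω + 1` is attainable.

Proof. For `f` in a closed invariant subspace `M` and `g` orthogonal to `M` the two sequences
`p j = f (-j) / β (-j)` and `q j = β j * conj (g j)`, where `β (n + 1) = 2 ^ (-|n|) β n`, satisfy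
`(p * q) k = 0` for all `k ≥ 0`. A Titchmarsh type theorem shows that `p j * q t = 0` whenever
`j + t ≥ 0`; the subspace `M` is then determined by the smallest `k` for which some `f` in `M` has
`f k ≠ 0`. For the Titchmarsh type theorem the truncations of `p` and `q` to `[0, N]` are regarded as
polynomials `A` and `B`; by the Gaussian type bounds for `p` and `q` the product `A B` is small on
the circles `|z| = 2 ^ x`, `X ≤ x < 2 X`, `N ≈ 8 X`, whereas on one of these circles `A B` is
comparable to the product of the sums of the absolute values of the coefficients (a Mahler measure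
estimate: on average a root of `A B` is far away from these circles).
-/

set_option autoImplicit false

namespace Pool.Agent.Results.MP_1e8505_an.HalmosShift

universe u

/-- The lattice of closed invariant subspaces of a bounded operator, ordered by inclusion. -/
abbrev Lat {H : Type u} [NormedAddCommGroup H] [InnerProductSpace ℂ H] (A : H →L[ℂ] H) : Type u :=
  {M : Submodule ℂ H // IsClosed (M : Set H) ∧ ∀ v ∈ M, A v ∈ M}

/-- The lattice of `A` is order isomorphic to `ℤ` with a new least and a new greatest element. -/
def LatIsChain {H : Type u} [NormedAddCommGroup H] [InnerProductSpace ℂ H] (A : H →L[ℂ] H) : Prop :=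
  Nonempty (Lat A ≃o WithBot (WithTop ℤ))

/-- `W` is the bilateral weighted shift with weights `2 ^ (-|n|)`. -/
def IsHalmosShift {H : Type u} [NormedAddCommGroup H] [InnerProductSpace ℂ H]
    (e : HilbertBasis ℤ ℂ H) (W : H →L[ℂ] H) : Prop :=
  ∀ n : ℤ, W (e n) = ((2 : ℂ) ^ (-|n|)) • e (n + 1)

/-- The obvious invariant subspace spanned by the `e n` with `n ≥ k`. -/
noncomputable def obvious {H : Type u} [NormedAddCommGroup H] [InnerProductSpace ℂ H]
    (e : HilbertBasis ℤ ℂ H) (k : ℤ) : Submodule ℂ H :=
  (Submodule.span ℂ (e '' {n | k ≤ n})).topologicalClosure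

/-- **Theorem** (a positive answer to Q2 and to Q1).

(a) Let `e` be an orthonormal basis of a Hilbert space `H` indexed by `ℤ`. There is exactly one
bounded operator `W` with `W (e n) = 2 ^ (-|n|) e (n + 1)` for all `n`, its closed invariant subspaces
are exactly `0`, `H` and the closed linear spans of the sets `{e n | n ≥ k}`, `k : ℤ`, and its lattice
is order isomorphic to `ℤ` with a new least and a new greatest element.

(b) In particular there is a bounded operator on the separable Hilbert space `ℓ²(ℤ)` whose lattice
of closed invariant subspaces is order isomorphic to `ℤ` with a new least and a new greatest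
element. -/
theorem result :
    (∀ (H : Type u) [NormedAddCommGroup H] [InnerProductSpace ℂ H] [CompleteSpace H]
      (e : HilbertBasis ℤ ℂ H),
      ∃ W : H →L[ℂ] H, IsHalmosShift e W ∧ (∀ V : H →L[ℂ] H, IsHalmosShift e V → V = W) ∧
        (∀ M : Submodule ℂ H, (IsClosed (M : Set H) ∧ ∀ v ∈ M, W v ∈ M) ↔
          (M = ⊥ ∨ M = ⊤ ∨ ∃ k : ℤ, M = obvious e k)) ∧
        LatIsChain W) ∧
    (∃ A : lp (fun _ : ℤ => ℂ) 2 →L[ℂ] lp (fun _ : ℤ => ℂ) 2, LatIsChain A) := by
  refine ⟨?_, ?_⟩
  · intro H _ _ _ e
    obtain ⟨W, hW⟩ := W2helper15.HC.exists_shift e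
    refine ⟨W, hW, fun V hV => ?_, fun M => ⟨?_, ?_⟩, W2helper15.HC.latIso e hW⟩
    · apply ContinuousLinearMap.ext_on (s := Set.range e)
      · rw [dense_iff_closure_eq, ← Submodule.topologicalClosure_coe, e.dense_span]
        rfl
      · rintro _ ⟨n, rfl⟩
        rw [hV, hW]
    · rintro ⟨h1, h2⟩
      exact W2helper15.HC.invariant_classification e hW M h1 h2
    · rintro (rfl | rfl | ⟨k, rfl⟩)
      · refine ⟨isClosed_singleton, fun v hv => ?_⟩
        rw [Submodule.mem_bot] at hv
        rw [hv, map_zero]
        exact Submodule.zero_mem _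
      · exact ⟨isClosed_univ, fun v _ => Submodule.mem_top⟩
      · exact ⟨W2helper15.HC.isClosed_Mk e k, W2helper15.HC.Mk_invariant e hW k⟩
  · let e : HilbertBasis ℤ ℂ (lp (fun _ : ℤ => ℂ) 2) := ⟨LinearIsometryEquiv.refl ℂ _⟩
    obtain ⟨W, hW⟩ := W2helper15.HC.exists_shift e
    exact ⟨W, W2helper15.HC.latIso e hW⟩

end Pool.Agent.Results.MP_1e8505_an.HalmosShift
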